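import Pool.Agent.helper54.UG.Spec

/-!
# ug:FIZ — subgroups of finite index are Zariski dense
-/

set_option autoImplicit false

namespace Pool.Agent.UG

open Matrix Pool.Agent.H48SL

theorem FIZ_xe {n : ℕ} {i j : Fin n} (hij : i ≠ j) (c : ℤ) : xe i j c = (xe i j 1) ^ c := by
  unfold xe
  rw [← tv_zsmul_right (single_dot hij 1)]
  congr 1
  rw [← Pi.single_smul, smul_eq_mul, mul_one]

/-- FIZ -/
theorem FIZ : FIZ_stmt := by
  intro n hn H hH
  apply zdense_of_Zc
  rw [eq_top_iff, ← ES_univ (ι := Fin n)]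
  unfold ES
  rw [Subgroup.closure_le]
  rintro g ⟨i, _, j, _, hij, c, rfl⟩
  show xe i j c ∈ Zc H
  rw [mem_Zc]
  intro F hF hFH
  obtain ⟨P, hP⟩ := hF.line 1 1 hij
  simp only [one_mul, mul_one] at hP
  obtain ⟨k, hk, -, hkm⟩ := Subgroup.exists_pow_mem_of_index_ne_zero hH.index_ne_zero (xe i j 1)
  have hroot : ∀ m : ℤ, P.IsRoot ((k : ℤ) * m) := by
    intro m
    show P.eval ((k : ℤ) * m) = 0
    rw [← hP, FIZ_xe hij, _root_.zpow_mul, zpow_natCast]
    exact hFH _ (H.zpow_mem hkm m)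
  have hinj : Function.Injective fun m : ℤ => (k : ℤ) * m := by
    intro a b hab
    have hk' : (k : ℤ) ≠ 0 := by exact_mod_cast hk.ne'
    exact mul_left_cancel₀ hk' hab
  have hP0 : P = 0 := by
    apply Polynomial.eq_zero_of_infinite_isRoot
    apply (Set.infinite_range_of_injective hinj).mono
    rintro _ ⟨m, rfl⟩
    exact hroot m
  rw [hP, hP0, Polynomial.eval_zero]

end Pool.Agent.UG
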