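import Pool.Agent.helper54.UG.Spec3

/-!
# ug:SUI — a good translate of an isotropic vector
-/

set_option autoImplicit false

namespace Pool.Agent.UG

open Matrix Pool.Agent.H48SL

section SUIaux

variable {n : ℕ} (S : MQ n)

theorem SUI_add_left (x y z : Fin n → ℚ) : bf S (x + y) z = bf S x z + bf S y z := by
  unfold bf
  rw [add_dotProduct]

theorem SUI_add_right (x y z : Fin n → ℚ) : bf S x (y + z) = bf S x y + bf S x z := by
  unfold bf
  rw [mulVec_add, dotProduct_add]

theorem SUI_smul_left (c : ℚ) (x y : Fin n → ℚ) : bf S (c • x) y = c * bf S x y := by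
  unfold bf
  rw [smul_dotProduct, smul_eq_mul]

theorem SUI_smul_right (c : ℚ) (x y : Fin n → ℚ) : bf S x (c • y) = c * bf S x y := by
  unfold bf
  rw [mulVec_smul, dotProduct_smul, smul_eq_mul]

theorem SUI_zero_left (y : Fin n → ℚ) : bf S 0 y = 0 := by
  unfold bf
  rw [zero_dotProduct]

theorem SUI_zero_right (x : Fin n → ℚ) : bf S x 0 = 0 := by
  unfold bf
  rw [mulVec_zero, dotProduct_zero]

theorem SUI_neg (x y : Fin n → ℚ) : bf (-S) x y = -bf S x y := by
  unfold bf
  rw [neg_mulVec, dotProduct_neg]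

variable {S}

theorem SUI_comm (hS : Sᵀ = S) (x y : Fin n → ℚ) : bf S x y = bf S y x := by
  unfold bf
  rw [dotProduct_mulVec, ← mulVec_transpose, hS, dotProduct_comm]

theorem SUI_nd (hdet : S.det ≠ 0) {x : Fin n → ℚ} (h : ∀ y, bf S y x = 0) : x = 0 := by
  apply Matrix.eq_zero_of_mulVec_eq_zero hdet
  ext i
  have h1 := h (Pi.single i 1)
  unfold bf at h1
  rwa [single_dotProduct, one_mul] at h1

/-- `S ↦ B(g⁻¹ v, g⁻¹ v)` is a polynomial function -/
theorem SUI_poly (S : MQ n) (v : Fin n → ℚ) :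
    IsPolyQ (fun g : SLZ n => bf S (qg g⁻¹ *ᵥ v) (qg g⁻¹ *ᵥ v)) := by
  have h1 : ∀ i, IsPolyQ (fun g : SLZ n => (qg g⁻¹ *ᵥ v) i) := by
    intro i
    simp only [mulVec, dotProduct]
    exact IsPolyQ.sum _ _ fun j _ => (IsPolyQ.entry_inv i j).mul (IsPolyQ.const _)
  have h2 : ∀ g : SLZ n, bf S (qg g⁻¹ *ᵥ v) (qg g⁻¹ *ᵥ v) =
      ∑ i, (qg g⁻¹ *ᵥ v) i * ∑ j, S i j * (qg g⁻¹ *ᵥ v) j := fun g => rfl
  simp only [h2]
  exact IsPolyQ.sum _ _ fun i _ => (h1 i).mul
    (IsPolyQ.sum _ _ fun j _ => (IsPolyQ.const _).mul (h1 j))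

theorem SUI_xe {i j : Fin n} (hij : i ≠ j) (c : ℤ) (v : Fin n → ℚ) :
    qg (xe i j c) *ᵥ v = v + ((c : ℚ) * v j) • Pi.single i 1 := by
  unfold xe
  rw [qg_tv (single_dot hij c), add_mulVec, one_mulVec, castV_single]
  congr 1
  have h1 : (castV (Pi.single j c : Fin n → ℤ) : Fin n → ℚ) = Pi.single j (c : ℚ) := by
    ext k
    by_cases hk : k = j
    · subst hk
      simp [castV]
    · simp [castV, hk]
  rw [h1, vecMulVec_mulVec, single_dotProduct]
  ext k
  simp [mul_comm]

/-- step 1 -/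
theorem SUI_one (hS : Sᵀ = S) (hdet : S.det ≠ 0) {H : Subgroup (SLZ n)} (hD : ZDense H)
    {v : Fin n → ℚ} (hv : v ≠ 0) (hvv : bf S v v = 0) :
    ∃ g ∈ H, bf S (qg g⁻¹ *ᵥ v) (qg g⁻¹ *ᵥ v) ≠ 0 := by
  by_contra hcon
  push Not at hcon
  have h1 : ∀ g : SLZ n, bf S (qg g *ᵥ v) (qg g *ᵥ v) = 0 := by
    intro g
    have := (SUI_poly S v).dense hD hcon g⁻¹
    simpa only [inv_inv] using this
  apply hv
  apply SUI_nd hdet
  have h2 : ∀ i, bf S v (Pi.single i 1) = 0 := by
    intro i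
    by_cases hi : ∃ j, i ≠ j ∧ v j ≠ 0
    · obtain ⟨j, hij, hj⟩ := hi
      have e1 := h1 (xe i j 1)
      have e2 := h1 (xe i j (-1))
      rw [SUI_xe hij] at e1 e2
      rw [SUI_add_left, SUI_add_right, SUI_add_right, SUI_smul_left, SUI_smul_left,
        SUI_smul_right, SUI_smul_right, hvv, SUI_comm hS (Pi.single i 1) v] at e1 e2
      push_cast at e1 e2
      have e3 : v j * bf S v (Pi.single i 1) = 0 := by linarith
      exact (mul_eq_zero.1 e3).resolve_left hj
    · push Not at hi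
      have e1 : v = v i • Pi.single i 1 := by
        ext k
        by_cases hk : k = i
        · subst hk
          simp
        · rw [hi k (Ne.symm hk)]
          simp [hk]
      have hvi : v i ≠ 0 := by
        intro h0
        apply hv
        rw [e1, h0, zero_smul]
      have e2 : v i * bf S v (Pi.single i 1) = 0 := by
        rw [← SUI_smul_right, ← e1]
        exact hvv
      exact (mul_eq_zero.1 e2).resolve_left hvi
  intro y
  rw [SUI_comm hS]
  have h3 : y = ∑ i, y i • (Pi.single i 1 : Fin n → ℚ) := by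
    ext k
    simp [Finset.sum_apply, Pi.single_apply]
  have h4 : S.mulVec v = 0 := by
    ext i
    have h5 := h2 i
    rw [SUI_comm hS] at h5
    unfold bf at h5
    rwa [single_dotProduct, one_mul] at h5
  rw [SUI_comm hS]
  unfold bf
  rw [h4, dotProduct_zero]

/-- the conclusion of SUI -/
def SUI_C (S : MQ n) (H : Subgroup (SLZ n)) : Prop :=
  ∃ g ∈ H, ∃ v : Fin n → ℚ, v ≠ 0 ∧ bf S v v = 0 ∧
      bf S (qg g⁻¹ *ᵥ v) (qg g⁻¹ *ᵥ v) ≠ 0 ∧
      ∃ x y : Fin n → ℚ, bf S (qg g⁻¹ *ᵥ v) x = 0 ∧ bf S (qg g⁻¹ *ᵥ v) y = 0 ∧ 0 < bf S x x ∧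
        bf S y y < 0

theorem SUI_C_neg {H : Subgroup (SLZ n)} (h : SUI_C (-S) H) : SUI_C S H := by
  obtain ⟨g, hg, v, hv, h1, h2, x, y, h3, h4, h5, h6⟩ := h
  rw [SUI_neg] at h1 h2 h3 h4 h5 h6
  exact ⟨g, hg, v, hv, by linarith, fun h => h2 (by linarith), y, x, by linarith, by linarith,
    by linarith, by linarith⟩

/-- a nonzero vector orthogonal to two vectors -/
theorem SUI_two (hn : 3 ≤ n) (u w : Fin n → ℚ) : ∃ x, x ≠ 0 ∧ bf S u x = 0 ∧ bf S w x = 0 := by
  let f : (Fin n → ℚ) →ₗ[ℚ] (Fin 2 → ℚ) :=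
    { toFun := fun x => ![bf S u x, bf S w x]
      map_add' := by
        intro x y
        rw [SUI_add_right, SUI_add_right]
        ext i
        fin_cases i <;> simp
      map_smul' := by
        intro c x
        rw [SUI_smul_right, SUI_smul_right]
        ext i
        fin_cases i <;> simp }
  have h1 : LinearMap.ker f ≠ ⊥ := by
    apply LinearMap.ker_ne_bot_of_finrank_lt
    rw [Module.finrank_fin_fun, Module.finrank_fin_fun]
    omega
  obtain ⟨x, hx, hx0⟩ := (Submodule.ne_bot_iff _).1 h1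
  have h2 : ![bf S u x, bf S w x] = (0 : Fin 2 → ℚ) := hx
  exact ⟨x, hx0, congrFun h2 0, congrFun h2 1⟩

/-- the semidefinite case -/
theorem SUI_main (hSGL : SGL_stmt) (hn : 4 ≤ n) (hS : Sᵀ = S) (hdet : S.det ≠ 0)
    {H : Subgroup (SLZ n)} {g : SLZ n} (hg : g ∈ H) {v : Fin n → ℚ} (hv : v ≠ 0)
    (hvv : bf S v v = 0) (hu : bf S (qg g⁻¹ *ᵥ v) (qg g⁻¹ *ᵥ v) ≠ 0)
    (hnn : ∀ x, bf S (qg g⁻¹ *ᵥ v) x = 0 → 0 ≤ bf S x x) : SUI_C S H := by
  obtain ⟨u, hu'⟩ : ∃ u, u = qg g⁻¹ *ᵥ v := ⟨_, rfl⟩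
  rw [← hu'] at hu hnn
  -- definite
  have hdef : ∀ x, bf S u x = 0 → x ≠ 0 → 0 < bf S x x := by
    intro x hx hx0
    rcases (hnn x hx).lt_or_eq with h | h
    · exact h
    · exfalso
      apply hx0
      have h1 : ∀ y, bf S u y = 0 → bf S x y = 0 := by
        intro y hy
        by_contra hne
        have h2 : ∀ t : ℚ, 0 ≤ 2 * t * bf S x y + t ^ 2 * bf S y y := by
          intro t
          have h3 := hnn (x + t • y) (by rw [SUI_add_right, SUI_smul_right, hx, hy]; ring)
          rw [SUI_add_left, SUI_add_right, SUI_add_right, SUI_smul_left, SUI_smul_left,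
            SUI_smul_right, SUI_smul_right, ← h, SUI_comm hS y x] at h3
          linarith
        have hyy := hnn y hy
        have h4 := h2 (-(bf S x y) / (1 + bf S y y))
        have h5 : 0 < 1 + bf S y y := by linarith
        have h6 : 2 * (-(bf S x y) / (1 + bf S y y)) * bf S x y +
            (-(bf S x y) / (1 + bf S y y)) ^ 2 * bf S y y =
            -(bf S x y) ^ 2 * (2 + bf S y y) / (1 + bf S y y) ^ 2 := by
          field_simp
          ring
        rw [h6] at h4
        have h7 : -(bf S x y) ^ 2 * (2 + bf S y y) / (1 + bf S y y) ^ 2 < 0 := by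
          apply div_neg_of_neg_of_pos
          · have : 0 < (bf S x y) ^ 2 := by positivity
            nlinarith
          · positivity
        linarith
      apply SUI_nd hdet
      intro y
      have h8 : y = (bf S u y / bf S u u) • u + (y - (bf S u y / bf S u u) • u) := by abel
      have h9 : bf S u (y - (bf S u y / bf S u u) • u) = 0 := by
        rw [sub_eq_add_neg, ← neg_smul, SUI_add_right, SUI_smul_right]
        field_simp
        ring
      rw [h8, SUI_add_left, SUI_smul_left, hx, SUI_comm hS _ x, h1 _ h9]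
      ring
  -- `B(u, u) < 0`
  have huneg : bf S u u < 0 := by
    rcases lt_or_gt_of_ne hu with h | h
    · exact h
    · exfalso
      have h9 : bf S u (v - (bf S u v / bf S u u) • u) = 0 := by
        rw [sub_eq_add_neg, ← neg_smul, SUI_add_right, SUI_smul_right]
        field_simp
        ring
      have h8 : v = (bf S u v / bf S u u) • u + (v - (bf S u v / bf S u u) • u) := by abel
      obtain ⟨x, hx⟩ : ∃ x, x = v - (bf S u v / bf S u u) • u := ⟨_, rfl⟩
      obtain ⟨c, hc⟩ : ∃ c, c = bf S u v / bf S u u := ⟨_, rfl⟩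
      rw [← hx] at h9 h8
      rw [← hc] at h8
      have h10 : bf S v v = c ^ 2 * bf S u u + bf S x x := by
        rw [h8, SUI_add_left, SUI_add_right, SUI_add_right, SUI_smul_left, SUI_smul_left,
          SUI_smul_right, SUI_smul_right, h9, SUI_comm hS x u, h9]
        ring
      have hx0 := hnn x h9
      have h11 : 0 ≤ c ^ 2 * bf S u u := by positivity
      have h12 : bf S x x = 0 := by linarith
      have h13 : c ^ 2 * bf S u u = 0 := by linarith
      have h14 : c = 0 := by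
        rcases mul_eq_zero.1 h13 with h | h'
        · exact pow_eq_zero_iff (two_ne_zero) |>.1 h
        · exact absurd h' hu
      have h15 : x = 0 := by
        by_contra hne
        have := hdef x h9 hne
        linarith
      apply hv
      rw [h8, h14, h15, zero_smul, add_zero]
  obtain ⟨y, hyy, hgy⟩ := hSGL n (by omega) S hS hdet u huneg hdef g⁻¹ v hvv
    (by rw [← hu']; exact huneg)
  rw [inv_inv] at hgy
  obtain ⟨u', hu1⟩ : ∃ u', u' = qg g *ᵥ y := ⟨_, rfl⟩
  rw [← hu1] at hgy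
  have hy0 : y ≠ 0 := by
    rintro rfl
    rw [hu1, mulVec_zero, SUI_zero_left] at hgy
    exact lt_irrefl _ hgy
  obtain ⟨x, hx0, hx1, hx2⟩ := SUI_two (S := S) (by omega : 3 ≤ n) u u'
  refine ⟨g⁻¹, H.inv_mem hg, y, hy0, hyy, ?_, x, u - (bf S u' u / bf S u' u') • u', ?_, ?_, ?_, ?_⟩
  · rw [inv_inv, ← hu1]
    exact hgy.ne'
  · rw [inv_inv, ← hu1]
    exact hx2
  · rw [inv_inv, ← hu1, sub_eq_add_neg, ← neg_smul, SUI_add_right, SUI_smul_right]
    have := hgy.ne'
    field_simp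
    ring
  · exact hdef x hx1 hx0
  · have h16 : bf S (u - (bf S u' u / bf S u' u') • u') (u - (bf S u' u / bf S u' u') • u') =
        bf S u u - (bf S u' u) ^ 2 / bf S u' u' := by
      rw [sub_eq_add_neg, ← neg_smul, SUI_add_left, SUI_add_right, SUI_add_right, SUI_smul_left,
        SUI_smul_left, SUI_smul_right, SUI_smul_right, SUI_comm hS u u']
      have := hgy.ne'
      field_simp
      ring
    rw [h16]
    have : 0 ≤ (bf S u' u) ^ 2 / bf S u' u' := by positivity
    linarith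

end SUIaux

/-- SUI -/
theorem SUI (hSGL : SGL_stmt) : SUI_stmt := by
  intro n hn S H hS hdet hD hv
  obtain ⟨v, hv0, hvv⟩ := hv
  obtain ⟨g, hg, hu⟩ := SUI_one hS hdet hD hv0 hvv
  by_cases hpos : ∃ x, bf S (qg g⁻¹ *ᵥ v) x = 0 ∧ 0 < bf S x x
  · by_cases hneg : ∃ y, bf S (qg g⁻¹ *ᵥ v) y = 0 ∧ bf S y y < 0
    · obtain ⟨x, hx, hx'⟩ := hpos
      obtain ⟨y, hy, hy'⟩ := hneg
      exact ⟨g, hg, v, hv0, hvv, hu, x, y, hx, hy, hx', hy'⟩
    · push Not at hneg
      exact SUI_main hSGL hn hS hdet hg hv0 hvv hu hneg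
  · push Not at hpos
    have hS' : (-S)ᵀ = -S := by rw [transpose_neg, hS]
    have hdet' : (-S).det ≠ 0 := by
      rw [det_neg]
      exact mul_ne_zero (pow_ne_zero _ (neg_ne_zero.2 one_ne_zero)) hdet
    apply SUI_C_neg
    apply SUI_main hSGL hn hS' hdet' hg hv0
    · rw [SUI_neg, hvv, neg_zero]
    · rw [SUI_neg]
      exact neg_ne_zero.2 hu
    · intro x hx
      rw [SUI_neg] at hx ⊢
      have := hpos x (by linarith)
      linarith

end Pool.Agent.UG
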